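import Pool.Agent.W205.K5.Stm

/-!
# Project K5 (helper205), part ALLIB (helper421): the inequality for all `ρ` gives the interface
-/

set_option autoImplicit false

namespace Pool.Agent.W421.K5

open Finset Pool.Agent.W890.SF Pool.Agent.W593.IR Filter Topology Pool.Agent.W205.K5

theorem NG_add_NL {V : Type} [Fintype V] (y : V → ℝ) (j : ℕ) :
    NG y j + NL y j = Fintype.card V ^ j := by
  classical
  unfold NG NL
  have h : {f : Fin j → V | ∑ i, y (f i) < 1} = {f : Fin j → V | 1 ≤ ∑ i, y (f i)}ᶜ := by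
    ext f
    simp
  rw [h, Set.ncard_add_ncard_compl, Nat.card_eq_fintype_card, Fintype.card_fun, Fintype.card_fin]

theorem NG_mono {V : Type} [Fintype V] (y y' : V → ℝ) (h : ∀ v, y v ≤ y' v) (j : ℕ) :
    NG y j ≤ NG y' j := by
  unfold NG
  refine Set.ncard_le_ncard ?_ (Set.toFinite _)
  intro f hf
  have h1 : 1 ≤ ∑ i, y (f i) := hf
  exact h1.trans (Finset.sum_le_sum fun i _ => h _)

theorem mv_cont (k : ℕ) : Continuous (mv k) := by
  have h : mv k = fun x : ℝ => max (1 - (1 - x) ^ k) ((k * x) ^ k) := rfl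
  rw [h]
  apply Continuous.max
  · fun_prop
  · fun_prop

theorem mv_mono (k : ℕ) (t t' : ℝ) (h0 : 0 ≤ t) (h1 : t ≤ t') (h2 : t' ≤ 1) :
    mv k t ≤ mv k t' := by
  have e1 : ((k : ℝ) * t) ^ k ≤ ((k : ℝ) * t') ^ k := by
    apply pow_le_pow_left₀
    · positivity
    · exact mul_le_mul_of_nonneg_left h1 (Nat.cast_nonneg k)
  have e2 : (1 - t') ^ k ≤ (1 - t) ^ k := by
    apply pow_le_pow_left₀
    · linarith
    · linarith
  unfold mv
  apply max_le_max _ e1
  linarith

theorem bound (hN : S_CNT) (k : ℕ) (hk : 2 ≤ k) (hALL : ALL k) (V : Type) [Fintype V]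
    [DecidableEq V] (y : V → ℝ) (s : ℕ) (hy : ∀ v, 0 ≤ y v) (hs : 0 < s)
    (hsV : s ≤ Fintype.card V) (hsupp : (univ.filter (fun v => y v ≠ 0)).card ≤ s)
    (hsum : (k : ℝ) * ∑ v, y v ≤ (s : ℝ)) :
    (NG y k : ℝ) ≤ (Fintype.card V : ℝ) ^ k * mv k ((s : ℝ) / (Fintype.card V : ℝ) / k) := by
  obtain ⟨S, hSs, -, hSc⟩ := Finset.exists_subsuperset_card_eq
    (subset_univ (univ.filter (fun v => y v ≠ 0))) hsupp (by rwa [card_univ])
  have hs0 : (0 : ℝ) < s := by exact_mod_cast hs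
  have hk0 : (0 : ℝ) < (k : ℝ) := by positivity
  set κ : ℝ := ((s : ℝ) / (k : ℝ) - ∑ v, y v) / s with hκ
  have hκ0 : 0 ≤ κ := by
    refine div_nonneg ?_ hs0.le
    rw [sub_nonneg, le_div_iff₀ hk0]
    linarith
  set y' : V → ℝ := fun v => if v ∈ S then y v + κ else 0 with hy'
  have hyS : ∀ v, v ∉ S → y v = 0 := by
    intro v hv
    by_contra h
    exact hv (hSs (mem_filter.2 ⟨mem_univ v, h⟩))
  have hyy : ∀ v, y v ≤ y' v := by
    intro v
    by_cases hv : v ∈ S
    · simp only [hy', if_pos hv]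
      linarith
    · simp only [hy', if_neg hv]
      rw [hyS v hv]
  have hy'0 : ∀ v, 0 ≤ y' v := fun v => (hy v).trans (hyy v)
  have hy'S : ∀ v, v ∉ S → y' v = 0 := by
    intro v hv
    simp only [hy', if_neg hv]
  set z : S → ℝ := fun v => y' v.1 with hz
  have hcardS : Fintype.card S = s := by rw [Fintype.card_coe, hSc]
  haveI : Nonempty S := by
    rw [← Fintype.card_pos_iff, hcardS]
    exact hs
  have hz0 : ∀ v, 0 ≤ z v := fun v => hy'0 _
  have hzsum : (k : ℝ) * ∑ v, z v = (Fintype.card S : ℝ) := by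
    have e1 : ∑ v, z v = ∑ v ∈ S, (y v + κ) := by
      rw [hz]
      have := Finset.sum_coe_sort S y'
      rw [this]
      refine Finset.sum_congr rfl fun v hv => ?_
      simp only [hy', if_pos hv]
    have e2 : ∑ v ∈ S, y v = ∑ v, y v :=
      Finset.sum_subset (subset_univ _) fun v _ hv => hyS v hv
    rw [e1, Finset.sum_add_distrib, e2, Finset.sum_const, nsmul_eq_mul, hSc, hcardS, hκ]
    field_simp
    ring
  have hcR : (Fintype.card S : ℝ) = s := by exact_mod_cast hcardS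
  have hadd : ∀ j, (NG z j : ℝ) + (NL z j : ℝ) = (s : ℝ) ^ j := by
    intro j
    have := NG_add_NL z j
    rw [hcardS] at this
    exact_mod_cast this
  set N : ℝ := (Fintype.card V : ℝ) with hN'
  have hsN : (s : ℝ) ≤ N := by rw [hN']; exact_mod_cast hsV
  have hN0 : 0 < N := by linarith
  set ρ : ℝ := (s : ℝ) / N with hρ
  have hρ0 : 0 ≤ ρ := by positivity
  have hρ1 : ρ ≤ 1 := by rw [hρ, div_le_one hN0]; exact hsN
  have hA := hALL S z hz0 hzsum ρ hρ0 hρ1
  rw [hcR] at hA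
  -- the sum
  have hbin : ∑ j ∈ range (k + 1), (k.choose j : ℝ) * (1 - ρ) ^ (k - j) * ρ ^ j = 1 := by
    have h := add_pow ρ (1 - ρ) k
    have e : ρ + (1 - ρ) = 1 := by ring
    rw [e, one_pow] at h
    refine Eq.trans ?_ h.symm
    refine Finset.sum_congr rfl fun j _ => ?_
    ring
  have hmono := NG_mono y y' hyy k
  have hcnt := hN V y' S k hy'0 hy'S
  have hmonoR : (NG y k : ℝ) ≤ (NG y' k : ℝ) := by exact_mod_cast hmono
  refine hmonoR.trans ?_
  have hsumeq : (NG y' k : ℝ) = N ^ k * (1 - Th k ρ (fun j => (NL z j : ℝ) / (s : ℝ) ^ j)) := by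
    have hone : (1 : ℝ) - Th k ρ (fun j => (NL z j : ℝ) / (s : ℝ) ^ j) =
        ∑ j ∈ range (k + 1), ((k.choose j : ℝ) * (1 - ρ) ^ (k - j) * ρ ^ j -
          (k.choose j : ℝ) * (1 - ρ) ^ (k - j) * ρ ^ j * ((NL z j : ℝ) / (s : ℝ) ^ j)) := by
      unfold Th
      rw [Finset.sum_sub_distrib, hbin]
    rw [hcnt, hone, Finset.mul_sum]
    refine Finset.sum_congr rfl fun j hj => ?_
    have hj' : j ≤ k := by
      have := mem_range.1 hj
      omega
    have hsplit : N ^ k = N ^ (k - j) * N ^ j := by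
      rw [← pow_add]
      congr 1
      omega
    have e1 : N ^ (k - j) * (1 - ρ) ^ (k - j) = (N - s) ^ (k - j) := by
      rw [← mul_pow]
      congr 1
      rw [hρ]
      field_simp
    have e2 : N ^ j * ρ ^ j = (s : ℝ) ^ j := by
      rw [← mul_pow]
      congr 1
      rw [hρ]
      field_simp
    have e3 : (s : ℝ) ^ j * (1 - (NL z j : ℝ) / (s : ℝ) ^ j) = (NG z j : ℝ) := by
      have h5 : (s : ℝ) ^ j ≠ 0 := by positivity
      rw [mul_sub, mul_one, mul_div_cancel₀ _ h5]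
      linarith [hadd j]
    rw [hSc]
    calc (k.choose j : ℝ) * (N - (s : ℝ)) ^ (k - j) * (NG z j : ℝ)
        = (k.choose j : ℝ) * (N ^ (k - j) * (1 - ρ) ^ (k - j)) *
          ((N ^ j * ρ ^ j) * (1 - (NL z j : ℝ) / (s : ℝ) ^ j)) := by
          rw [e1, e2, e3]
      _ = N ^ k * ((k.choose j : ℝ) * (1 - ρ) ^ (k - j) * ρ ^ j -
          (k.choose j : ℝ) * (1 - ρ) ^ (k - j) * ρ ^ j * ((NL z j : ℝ) / (s : ℝ) ^ j)) := by
          rw [hsplit]
          ring
  rw [hsumeq]
  refine mul_le_mul_of_nonneg_left ?_ (by positivity)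
  have e4 : (k : ℝ) * (ρ / k) = ρ := by field_simp
  unfold mv
  rw [e4]
  rcases min_le_iff.1 hA with h | h
  · exact le_trans (by linarith) (le_max_right _ _)
  · exact le_trans (by linarith) (le_max_left _ _)

theorem allib (hN : S_CNT) : S_ALLIB := by
  intro k hk hALL x hx hx1 ε hε
  have hk1 : (2 : ℝ) ≤ (k : ℝ) := by exact_mod_cast hk
  have hx2 : x < 1 := by nlinarith
  obtain ⟨δ, hδ, hδ'⟩ := Metric.continuous_iff.1 (mv_cont k) x ε hε
  set η : ℝ := min (δ / 2) (1 - x) with hη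
  have hη0 : 0 < η := lt_min (by linarith) (by linarith)
  have hη1 : η ≤ δ / 2 := min_le_left _ _
  have hη2 : η ≤ 1 - x := min_le_right _ _
  refine ⟨η, hη0, ?_⟩
  intro V _ _ y s hy hs hsV hsup hsum hsη
  have hNp : (0 : ℝ) < (Fintype.card V : ℝ) := by
    have : 0 < Fintype.card V := lt_of_lt_of_le hs hsV
    exact_mod_cast this
  refine (bound hN k hk hALL V y s hy hs hsV hsup hsum).trans ?_
  apply mul_le_mul_of_nonneg_left _ (pow_nonneg hNp.le _)
  have hk0 : (0 : ℝ) < (k : ℝ) := by linarith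
  have h3 : (s : ℝ) / (Fintype.card V : ℝ) / (k : ℝ) ≤ x + η := by
    rw [div_le_iff₀ hk0, div_le_iff₀ hNp]
    calc (s : ℝ) ≤ _ := hsη
      _ = _ := by ring
  have h4 := mv_mono k _ (x + η) (by positivity) h3 (by linarith)
  have h5 := hδ' (x + η) (by
    rw [Real.dist_eq]
    have : x + η - x = η := by ring
    rw [this, abs_of_pos hη0]
    linarith)
  rw [Real.dist_eq] at h5
  have h6 := (abs_lt.1 h5).2
  linarith

end Pool.Agent.W421.K5
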